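import Mathlib
import Pool.Agent.T88R.Rho

/-!
# MP_70678e_nt : assertions (b) and (c) of De Koninck are false

`rho k` is the least prime with decimal digit sum `k`.  The least prime with digit sum
`1286 = 9 * 143 - 1` is `10 ^ 143 - 11`, which ends in `89`; this refutes (b) and (c).

Numbers below `10 ^ 143` with digit sum `1286` are exactly `10 ^ 143 - 1 - 10 ^ j`; those with
`2 ≤ j ≤ 142` fail the Fermat test with base `2`, and `10 ^ 143 - 11` is prime by the `N + 1`
test of Morrison (`N + 1 = 10 * (10 ^ 71 - 1) * (10 ^ 71 + 1)`), which is proved in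
`Pool.Agent.T88R.Morrison`.
-/

namespace Pool.Agent.Results.MP_70678e_nt.DigitsFail

/-- the sum of the decimal digits of `n` -/
def digitSum (n : ℕ) : ℕ := (Nat.digits 10 n).sum

/-- `p` is the least prime with digit sum `k` -/
def IsLeastPrime (k p : ℕ) : Prop :=
  p.Prime ∧ digitSum p = k ∧ ∀ q : ℕ, q.Prime → digitSum q = k → p ≤ q

/-- assertion (b): the least prime with digit sum `k` is `99` modulo `100` for all `k > 38`
for which there is one -/
def AssertionB : Prop := ∀ k p : ℕ, 38 < k → IsLeastPrime k p → p % 100 = 99

/-- assertion (c): the least prime with digit sum `k` is `999` modulo `1000` for all `k > 59`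
for which there is one -/
def AssertionC : Prop := ∀ k p : ℕ, 59 < k → IsLeastPrime k p → p % 1000 = 999

theorem least_1286 : IsLeastPrime 1286 (10 ^ 143 - 11) := T88R.rho_1286

theorem least_260 : IsLeastPrime 260 (10 ^ 29 - 101) := T88R.rho_260

/-- Both assertions (b) and (c) fail. -/
theorem result : ¬ AssertionB ∧ ¬ AssertionC := by
  constructor
  · intro h
    have := h 1286 _ (by norm_num) least_1286
    norm_num at this
  · intro h
    have := h 260 _ (by norm_num) least_260
    norm_num at this

end Pool.Agent.Results.MP_70678e_nt.DigitsFail
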